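import Mathlib
import Pool.Agent.H24.PlotkinDefs
import Pool.Agent.H24.TreeAlg

set_option autoImplicit false
open FirstOrder FirstOrder.Language
open Pool.Agent.H24 Pool.Agent.H24.Plotkin

namespace Pool.Agent.Results.MP_c850b7_lc.NotIso

theorem result :
    ¬ ∀ (L : FirstOrder.Language.{0, 0}), (∀ n, IsEmpty (L.Relations n)) →
      ∀ (E : Identities L) (H₁ H₂ : Type) [L.Structure H₁] [L.Structure H₂],
        Sat E H₁ → Sat E H₂ → Structure.FG L H₁ → Structure.FG L H₂ → Isotypic L H₁ H₂ →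
        Nonempty (L.Equiv H₁ H₂) := by
  intro h
  obtain ⟨e⟩ := h TreeAlg.LT TreeAlg.LT_rel ∅ (TreeAlg.Hs 0) (TreeAlg.Hs 1)
    (fun _ h => h.elim) (fun _ h => h.elim) (TreeAlg.Hs_fg 0) (TreeAlg.Hs_fg 1)
    (TreeAlg.isotyp _ _ (TreeAlg.Hs_el 0) (TreeAlg.Hs_el 1) (TreeAlg.Hs_le 0) (TreeAlg.Hs_le 1)
      0 1 le_rfl le_rfl)
  exact TreeAlg.not_iso e

end Pool.Agent.Results.MP_c850b7_lc.NotIso
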